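import Pool.Agent.QSB.StmtsT

/-!
# Squad QSB, row SYP: products of data of self adjoint Lie algebras
-/

set_option autoImplicit false

namespace Pool.Agent.QSB.H12

open Matrix Finset Pool.Agent.QSX Pool.Agent.QSN Pool.Agent.QSB

variable {m m' : ℕ}

theorem bd_tr (x : Matrix (Fin m) (Fin m) ℝ) (y : Matrix (Fin m') (Fin m') ℝ) :
    (bd x y)ᵀ = bd xᵀ yᵀ := by
  apply bd_ext <;> intro i j <;> simp [Matrix.transpose_apply]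

/-- block diagonal matrices with blocks in `g₁`, `g₂` -/
def gg (g₁ : Submodule ℝ (Matrix (Fin m) (Fin m) ℝ))
    (g₂ : Submodule ℝ (Matrix (Fin m') (Fin m') ℝ)) :
    Submodule ℝ (Matrix (Fin (m + m')) (Fin (m + m')) ℝ) where
  carrier := {z | ∃ x ∈ g₁, ∃ y ∈ g₂, z = bd x y}
  add_mem' := by
    rintro _ _ ⟨x, hx, y, hy, rfl⟩ ⟨x', hx', y', hy', rfl⟩
    exact ⟨_, g₁.add_mem hx hx', _, g₂.add_mem hy hy', bd_add _ _ _ _⟩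
  zero_mem' := ⟨0, g₁.zero_mem, 0, g₂.zero_mem, bd_zero.symm⟩
  smul_mem' := by
    rintro c _ ⟨x, hx, y, hy, rfl⟩
    exact ⟨_, g₁.smul_mem c hx, _, g₂.smul_mem c hy, bd_smul _ _ _⟩

theorem mem_gg {g₁ : Submodule ℝ (Matrix (Fin m) (Fin m) ℝ)}
    {g₂ : Submodule ℝ (Matrix (Fin m') (Fin m') ℝ)} {x : Matrix (Fin m) (Fin m) ℝ}
    {y : Matrix (Fin m') (Fin m') ℝ} : bd x y ∈ gg g₁ g₂ ↔ x ∈ g₁ ∧ y ∈ g₂ := by
  constructor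
  · rintro ⟨x', hx', y', hy', h⟩
    obtain ⟨h1, h2⟩ := bd_inj h
    exact ⟨h1 ▸ hx', h2 ▸ hy'⟩
  · rintro ⟨hx, hy⟩
    exact ⟨x, hx, y, hy, rfl⟩

theorem lie_gg {g₁ : Submodule ℝ (Matrix (Fin m) (Fin m) ℝ)}
    {g₂ : Submodule ℝ (Matrix (Fin m') (Fin m') ℝ)}
    {z z' : Matrix (Fin (m + m')) (Fin (m + m')) ℝ} (hz : z ∈ gg g₁ g₂) (hz' : z' ∈ gg g₁ g₂)
    (h1 : ∀ x ∈ g₁, ∀ y ∈ g₁, x * y - y * x ∈ g₁)
    (h2 : ∀ x ∈ g₂, ∀ y ∈ g₂, x * y - y * x ∈ g₂) : z * z' - z' * z ∈ gg g₁ g₂ := by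
  obtain ⟨x, hx, y, hy, rfl⟩ := hz
  obtain ⟨x', hx', y', hy', rfl⟩ := hz'
  exact ⟨_, h1 x hx x' hx', _, h2 y hy y' hy', by rw [bd_mul, bd_mul, bd_sub]⟩

theorem app_split (c : Fin (m + m') → ℝ) :
    c = Fin.append (fun i => c (Fin.castAdd m' i)) (fun i => c (Fin.natAdd m i)) := by
  funext i
  refine Fin.addCases (fun i => ?_) (fun i => ?_) i
  · rw [Fin.append_left]
  · rw [Fin.append_right]

theorem pos_bd {x : Matrix (Fin m) (Fin m) ℝ} {y : Matrix (Fin m') (Fin m') ℝ}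
    {a : Fin m → ℝ} {a' : Fin m' → ℝ} :
    (∀ i j, bd x y i j ≠ 0 → Fin.append a a' j < Fin.append a a' i) ↔
    (∀ i j, x i j ≠ 0 → a j < a i) ∧ ∀ i j, y i j ≠ 0 → a' j < a' i := by
  constructor
  · intro h
    constructor
    · intro i j hij
      have := h (Fin.castAdd m' i) (Fin.castAdd m' j) (by rw [bd_cc]; exact hij)
      rwa [Fin.append_left, Fin.append_left] at this
    · intro i j hij
      have := h (Fin.natAdd m i) (Fin.natAdd m j) (by rw [bd_nn]; exact hij)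
      rwa [Fin.append_right, Fin.append_right] at this
  · rintro ⟨h1, h2⟩ i j
    refine Fin.addCases (fun i => ?_) (fun i => ?_) i <;>
      refine Fin.addCases (fun j => ?_) (fun j => ?_) j <;> intro hij
    · rw [bd_cc] at hij
      rw [Fin.append_left, Fin.append_left]
      exact h1 i j hij
    · exact absurd (bd_cn _ _ _ _) hij
    · exact absurd (bd_nc _ _ _ _) hij
    · rw [bd_nn] at hij
      rw [Fin.append_right, Fin.append_right]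
      exact h2 i j hij

/-- Row SYP. -/
theorem syp : SypStmt := by
  rintro X₁ X₂ ⟨S₁⟩ ⟨S₂⟩
  have ha : (Fin.append (S₁.a₀ : Fin X₁.m → ℝ) (S₂.a₀ : Fin X₂.m → ℝ)) ∈ (X₁.prod X₂).b := by
    constructor
    · have h : LinearMap.funLeft ℝ ℝ (Fin.castAdd X₂.m)
          (Fin.append (S₁.a₀ : Fin X₁.m → ℝ) (S₂.a₀ : Fin X₂.m → ℝ)) = S₁.a₀ := by
        funext i
        exact Fin.append_left _ _ i
      show LinearMap.funLeft ℝ ℝ (Fin.castAdd X₂.m)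
          (Fin.append (S₁.a₀ : Fin X₁.m → ℝ) (S₂.a₀ : Fin X₂.m → ℝ)) ∈ X₁.b
      rw [h]
      exact S₁.a₀.2
    · have h : LinearMap.funLeft ℝ ℝ (Fin.natAdd X₁.m)
          (Fin.append (S₁.a₀ : Fin X₁.m → ℝ) (S₂.a₀ : Fin X₂.m → ℝ)) = S₂.a₀ := by
        funext i
        exact Fin.append_right _ _ i
      show LinearMap.funLeft ℝ ℝ (Fin.natAdd X₁.m)
          (Fin.append (S₁.a₀ : Fin X₁.m → ℝ) (S₂.a₀ : Fin X₂.m → ℝ)) ∈ X₂.b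
      rw [h]
      exact S₂.a₀.2
  refine ⟨⟨gg S₁.g S₂.g, ?_, ?_, ?_, ⟨_, ha⟩, ?_, ?_⟩⟩
  · rintro _ ⟨x, hx, y, hy, rfl⟩ _ ⟨x', hx', y', hy', rfl⟩
    exact lie_gg (mem_gg.2 ⟨hx, hy⟩) (mem_gg.2 ⟨hx', hy'⟩) S₁.lie S₂.lie
  · rintro _ ⟨x, hx, y, hy, rfl⟩
    exact ⟨_, S₁.tr x hx, _, S₂.tr y hy, bd_tr x y⟩
  · intro c
    have key : ∀ c : Fin (X₁.m + X₂.m) → ℝ,
        ((fun i => c (Fin.castAdd X₂.m i)) ∈ X₁.b ∧ (fun i => c (Fin.natAdd X₁.m i)) ∈ X₂.b) ↔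
          diagonal c ∈ gg S₁.g S₂.g := by
      intro c
      conv_rhs => rw [app_split c, ← bd_diagonal]
      rw [mem_gg, S₁.b_mem, S₂.b_mem]
    exact key c
  · intro z
    have key : ∀ z : Matrix (Fin (X₁.m + X₂.m)) (Fin (X₁.m + X₂.m)) ℝ,
        (∃ x ∈ X₁.n, ∃ y ∈ X₂.n, z = bd x y) ↔ z ∈ gg S₁.g S₂.g ∧ ∀ i j, z i j ≠ 0 →
          Fin.append (S₁.a₀ : Fin X₁.m → ℝ) (S₂.a₀ : Fin X₂.m → ℝ) j <
            Fin.append (S₁.a₀ : Fin X₁.m → ℝ) (S₂.a₀ : Fin X₂.m → ℝ) i := by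
      intro z
      constructor
      · rintro ⟨x, hx, y, hy, rfl⟩
        obtain ⟨h1, h2⟩ := (S₁.n_mem x).1 hx
        obtain ⟨h3, h4⟩ := (S₂.n_mem y).1 hy
        exact ⟨mem_gg.2 ⟨h1, h3⟩, pos_bd.2 ⟨h2, h4⟩⟩
      · rintro ⟨⟨x, hx, y, hy, rfl⟩, h⟩
        obtain ⟨h2, h4⟩ := pos_bd.1 h
        exact ⟨x, (S₁.n_mem x).2 ⟨hx, h2⟩, y, (S₂.n_mem y).2 ⟨hy, h4⟩, rfl⟩
    exact key z
  · intro z hz ht hc
    have key : ∀ z : Matrix (Fin (X₁.m + X₂.m)) (Fin (X₁.m + X₂.m)) ℝ,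
        z ∈ gg S₁.g S₂.g → zᵀ = z →
        diagonal (Fin.append (S₁.a₀ : Fin X₁.m → ℝ) (S₂.a₀ : Fin X₂.m → ℝ)) * z =
          z * diagonal (Fin.append (S₁.a₀ : Fin X₁.m → ℝ) (S₂.a₀ : Fin X₂.m → ℝ)) →
        ∃ c, z = diagonal c := by
      rintro _ ⟨x, hx, y, hy, rfl⟩ ht hc
      rw [bd_tr] at ht
      rw [← bd_diagonal, bd_mul, bd_mul] at hc
      obtain ⟨t1, t2⟩ := bd_inj ht
      obtain ⟨c1, c2⟩ := bd_inj hc
      obtain ⟨d1, hd1⟩ := S₁.reg x hx t1 c1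
      obtain ⟨d2, hd2⟩ := S₂.reg y hy t2 c2
      exact ⟨Fin.append d1 d2, by rw [hd1, hd2, bd_diagonal]⟩
    exact key z hz ht hc

end Pool.Agent.QSB.H12
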